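import Mathlib

/-!
# A non-classical symmetric net with a group transitive on joined and on non-joined pairs

The net is the symmetric `(3,2)`-net given by a generalised Hadamard matrix of order six over the
group of order three.
-/

namespace Pool.Agent.Results.MP_36fbc5_co.NonClassicalNet

/-- The incidence relation `I` between the points `P` and the blocks `B` is an
`(s, r, μ)`-net. -/
def IsNet (s r μ : ℕ) {P B : Type} (I : P → B → Prop) : Prop :=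
  2 ≤ s ∧ 1 ≤ μ ∧ 3 ≤ r ∧ Nat.card P = s ^ 2 * μ ∧
    (∀ b b' : B, (∀ p, I p b ↔ I p b') → b = b') ∧
    (∀ b : B, {p | I p b}.ncard = s * μ) ∧
    ∃ c : B → Fin r, (∀ (i : Fin r) (p : P), ∃! b, c b = i ∧ I p b) ∧
      ∀ b b' : B, c b ≠ c b' → {p | I p b ∧ I p b'}.ncard = μ

/-- symmetric `(s, μ)`-nets -/
def IsSymmetricNet (s μ : ℕ) {P B : Type} (I : P → B → Prop) : Prop :=
  IsNet s (s * μ) μ I ∧ IsNet s (s * μ) μ (fun b p => I p b)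

/-- a permutation of the points that maps blocks to blocks -/
def IsAut {P B : Type} (I : P → B → Prop) (σ : Equiv.Perm P) : Prop :=
  ∃ τ : Equiv.Perm B, ∀ p b, I (σ p) (τ b) ↔ I p b

/-- two points on a common block -/
def Joined {P B : Type} (I : P → B → Prop) (p q : P) : Prop := ∃ b, I p b ∧ I q b

/-- transitivity on the unordered pairs of distinct points satisfying a symmetric relation -/
def TransitiveOnPairs {P : Type} (G : Subgroup (Equiv.Perm P)) (R : P → P → Prop) : Prop :=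
  ∀ p q p' q' : P, p ≠ q → p' ≠ q' → R p q → R p' q' →
    ∃ σ ∈ G, ({σ p, σ q} : Set P) = {p', q'}

/-- The net is classical: it is isomorphic to the structure of all points of the affine space of
dimension `d ≥ 2` over a finite field `F` and of all its hyperplanes that contain no line in the
direction `u`. -/
def IsClassical {P B : Type} (I : P → B → Prop) : Prop :=
  ∃ (F : Type) (_ : Field F) (_ : Finite F) (d : ℕ) (_ : 2 ≤ d) (u : Fin d → F)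
    (e : P ≃ (Fin d → F)),
    u ≠ 0 ∧ {S : Set (Fin d → F) | ∃ b, S = e '' {p | I p b}} =
      {S | ∃ (f : (Fin d → F) →ₗ[F] F) (a : F), f u ≠ 0 ∧ S = {x | f x = a}}

lemma perm_ais {X : Type} (σ : Equiv.Perm X) (x : X) : σ (σ⁻¹ x) = x := σ.apply_symm_apply x
lemma perm_ias {X : Type} (σ : Equiv.Perm X) (x : X) : σ⁻¹ (σ x) = x := σ.symm_apply_apply x

/-- the group of all automorphisms -/
def autGroup {P B : Type} (I : P → B → Prop) : Subgroup (Equiv.Perm P) where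
  carrier := {σ | IsAut I σ}
  mul_mem' := by
    rintro σ σ' ⟨τ, h⟩ ⟨τ', h'⟩
    exact ⟨τ * τ', fun p b => (h _ _).trans (h' _ _)⟩
  one_mem' := ⟨1, fun _ _ => Iff.rfl⟩
  inv_mem' := by
    rintro σ ⟨τ, h⟩
    refine ⟨τ⁻¹, fun p b => ?_⟩
    have := h (σ⁻¹ p) (τ⁻¹ b)
    rw [perm_ais, perm_ais] at this
    exact this.symm

/-- the generalised Hadamard matrix, packed -/
def Hc : ℕ := 415382864298974183424

/-- entries of the matrix -/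
def Hv (i j : ℕ) : ℕ := Nat.land (Nat.shiftRight Hc (2 * (6 * i + j))) 3

/-- incidence of the point `(p / 3, p % 3)` and the block `(b / 3, b % 3)` -/
def inc (p b : ℕ) : Bool := Nat.beq (p % 3) ((Hv (p / 3) (b / 3) + b % 3) % 3)

/-- the net -/
def I (p b : Fin 18) : Prop := inc p b = true

instance (p b : Fin 18) : Decidable (I p b) := inferInstanceAs (Decidable (inc p b = true))

instance (p q : Fin 18) : Decidable (Joined I p q) :=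
  inferInstanceAs (Decidable (∃ b, I p b ∧ I q b))

/-- the parallel classes -/
def cl (b : Fin 18) : Fin 6 := ⟨b / 3, by omega⟩

lemma ncard_eq {P : Fin 18 → Prop} [DecidablePred P] {n : ℕ}
    (h : (Finset.univ.filter P).card = n) : {p | P p}.ncard = n := by
  rw [← h, ← Set.ncard_coe_finset]
  congr 1
  ext p
  simp

lemma existsUnique_of {P : Fin 18 → Prop} (h : ∃ b, P b ∧ ∀ b', P b' → b' = b) : ∃! b, P b := h

theorem isNet : IsNet 3 6 2 I := by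
  have k1 : ∀ b b' : Fin 18, (∀ p, I p b ↔ I p b') → b = b' := by decide +kernel
  have k2 : ∀ b : Fin 18, (Finset.univ.filter (fun p => I p b)).card = 3 * 2 := by
    decide +kernel
  have k3 : ∀ (i : Fin 6) (p : Fin 18), ∃ b, (cl b = i ∧ I p b) ∧
      ∀ b', (cl b' = i ∧ I p b') → b' = b := by decide +kernel
  have k4 : ∀ b b' : Fin 18, cl b ≠ cl b' →
      (Finset.univ.filter (fun p => I p b ∧ I p b')).card = 2 := by decide +kernel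
  exact ⟨by norm_num, by norm_num, by norm_num, by simp, k1, fun b => ncard_eq (k2 b), cl,
    fun i p => existsUnique_of (k3 i p), fun b b' h => ncard_eq (k4 b b' h)⟩

theorem isNet_dual : IsNet 3 6 2 (fun b p : Fin 18 => I p b) := by
  have k1 : ∀ b b' : Fin 18, (∀ p, I b p ↔ I b' p) → b = b' := by decide +kernel
  have k2 : ∀ b : Fin 18, (Finset.univ.filter (fun p => I b p)).card = 3 * 2 := by
    decide +kernel
  have k3 : ∀ (i : Fin 6) (p : Fin 18), ∃ b, (cl b = i ∧ I b p) ∧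
      ∀ b', (cl b' = i ∧ I b' p) → b' = b := by decide +kernel
  have k4 : ∀ b b' : Fin 18, cl b ≠ cl b' →
      (Finset.univ.filter (fun p => I b p ∧ I b' p)).card = 2 := by decide +kernel
  exact ⟨by norm_num, by norm_num, by norm_num, by simp, k1, fun b => ncard_eq (k2 b), cl,
    fun i p => existsUnique_of (k3 i p), fun b b' h => ncard_eq (k4 b b' h)⟩

/-- some automorphisms: the action on points -/
def T : Fin 35 → Fin 18 → Fin 18 :=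
  ![![0, 1, 2, 3, 4, 5, 6, 7, 8, 9, 10, 11, 12, 13, 14, 15, 16, 17],
    ![1, 0, 2, 3, 5, 4, 6, 8, 7, 14, 13, 12, 11, 10, 9, 16, 15, 17],
    ![2, 0, 1, 3, 4, 5, 7, 8, 6, 15, 16, 17, 11, 9, 10, 13, 14, 12],
    ![3, 4, 5, 0, 1, 2, 6, 7, 8, 9, 10, 11, 15, 16, 17, 12, 13, 14],
    ![4, 3, 5, 0, 2, 1, 6, 8, 7, 17, 16, 15, 11, 10, 9, 13, 12, 14],
    ![5, 3, 4, 0, 1, 2, 7, 8, 6, 12, 13, 14, 11, 9, 10, 16, 17, 15],
    ![6, 7, 8, 0, 1, 2, 3, 4, 5, 12, 13, 14, 15, 16, 17, 9, 10, 11],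
    ![7, 6, 8, 0, 2, 1, 3, 5, 4, 17, 16, 15, 14, 13, 12, 10, 9, 11],
    ![8, 6, 7, 0, 1, 2, 4, 5, 3, 9, 10, 11, 14, 12, 13, 16, 17, 15],
    ![9, 10, 11, 0, 1, 2, 3, 4, 5, 15, 16, 17, 12, 13, 14, 6, 7, 8],
    ![10, 9, 11, 0, 2, 1, 3, 5, 4, 14, 13, 12, 17, 16, 15, 7, 6, 8],
    ![11, 9, 10, 0, 1, 2, 4, 5, 3, 6, 7, 8, 17, 15, 16, 13, 14, 12],
    ![12, 13, 14, 0, 1, 2, 5, 3, 4, 11, 9, 10, 16, 17, 15, 7, 8, 6],
    ![13, 12, 14, 0, 2, 1, 5, 4, 3, 15, 17, 16, 10, 9, 11, 8, 7, 6],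
    ![14, 12, 13, 0, 1, 2, 3, 4, 5, 7, 8, 6, 10, 11, 9, 17, 15, 16],
    ![15, 16, 17, 0, 1, 2, 5, 3, 4, 8, 6, 7, 13, 14, 12, 10, 11, 9],
    ![16, 15, 17, 0, 2, 1, 5, 4, 3, 12, 14, 13, 7, 6, 8, 11, 10, 9],
    ![17, 15, 16, 0, 1, 2, 3, 4, 5, 10, 11, 9, 7, 8, 6, 14, 12, 13],
    ![0, 1, 2, 3, 4, 5, 6, 7, 8, 9, 10, 11, 12, 13, 14, 15, 16, 17],
    ![0, 1, 2, 4, 5, 3, 8, 6, 7, 16, 17, 15, 9, 10, 11, 14, 12, 13],
    ![0, 1, 2, 5, 3, 4, 7, 8, 6, 12, 13, 14, 16, 17, 15, 11, 9, 10],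
    ![0, 1, 2, 6, 7, 8, 3, 4, 5, 12, 13, 14, 9, 10, 11, 15, 16, 17],
    ![0, 1, 2, 7, 8, 6, 5, 3, 4, 16, 17, 15, 12, 13, 14, 11, 9, 10],
    ![0, 1, 2, 8, 6, 7, 4, 5, 3, 9, 10, 11, 16, 17, 15, 14, 12, 13],
    ![0, 1, 2, 9, 10, 11, 3, 4, 5, 15, 16, 17, 6, 7, 8, 12, 13, 14],
    ![0, 1, 2, 10, 11, 9, 5, 3, 4, 13, 14, 12, 15, 16, 17, 8, 6, 7],
    ![0, 1, 2, 11, 9, 10, 4, 5, 3, 6, 7, 8, 13, 14, 12, 17, 15, 16],
    ![0, 1, 2, 12, 13, 14, 5, 3, 4, 11, 9, 10, 7, 8, 6, 16, 17, 15],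
    ![0, 1, 2, 13, 14, 12, 4, 5, 3, 17, 15, 16, 11, 9, 10, 6, 7, 8],
    ![0, 1, 2, 14, 12, 13, 3, 4, 5, 7, 8, 6, 17, 15, 16, 10, 11, 9],
    ![0, 1, 2, 15, 16, 17, 5, 3, 4, 8, 6, 7, 10, 11, 9, 13, 14, 12],
    ![0, 1, 2, 16, 17, 15, 4, 5, 3, 14, 12, 13, 8, 6, 7, 9, 10, 11],
    ![0, 1, 2, 17, 15, 16, 3, 4, 5, 10, 11, 9, 14, 12, 13, 7, 8, 6],
    ![0, 1, 2, 3, 4, 5, 6, 7, 8, 9, 10, 11, 12, 13, 14, 15, 16, 17],
    ![0, 2, 1, 3, 5, 4, 7, 6, 8, 10, 9, 11, 17, 16, 15, 14, 13, 12]]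

/-- some automorphisms: the action on blocks -/
def T' : Fin 35 → Fin 18 → Fin 18 :=
  ![![0, 1, 2, 3, 4, 5, 6, 7, 8, 9, 10, 11, 12, 13, 14, 15, 16, 17],
    ![16, 15, 17, 13, 12, 14, 10, 9, 11, 7, 6, 8, 4, 3, 5, 1, 0, 2],
    ![11, 9, 10, 8, 6, 7, 17, 15, 16, 14, 12, 13, 2, 0, 1, 5, 3, 4],
    ![0, 1, 2, 3, 4, 5, 16, 17, 15, 13, 14, 12, 11, 9, 10, 8, 6, 7],
    ![6, 8, 7, 9, 11, 10, 14, 13, 12, 17, 16, 15, 4, 3, 5, 1, 0, 2],
    ![12, 13, 14, 15, 16, 17, 7, 8, 6, 10, 11, 9, 2, 0, 1, 5, 3, 4],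
    ![0, 1, 2, 6, 7, 8, 16, 17, 15, 10, 11, 9, 14, 12, 13, 5, 3, 4],
    ![3, 5, 4, 12, 14, 13, 11, 10, 9, 17, 16, 15, 7, 6, 8, 1, 0, 2],
    ![9, 10, 11, 15, 16, 17, 4, 5, 3, 13, 14, 12, 2, 0, 1, 8, 6, 7],
    ![0, 1, 2, 9, 10, 11, 13, 14, 12, 7, 8, 6, 17, 15, 16, 5, 3, 4],
    ![3, 5, 4, 15, 17, 16, 8, 7, 6, 14, 13, 12, 10, 9, 11, 1, 0, 2],
    ![6, 7, 8, 12, 13, 14, 4, 5, 3, 16, 17, 15, 2, 0, 1, 11, 9, 10],
    ![12, 13, 14, 0, 1, 2, 10, 11, 9, 4, 5, 3, 8, 6, 7, 17, 15, 16],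
    ![15, 17, 16, 6, 8, 7, 5, 4, 3, 11, 10, 9, 1, 0, 2, 13, 12, 14],
    ![3, 4, 5, 9, 10, 11, 16, 17, 15, 7, 8, 6, 14, 12, 13, 2, 0, 1],
    ![15, 16, 17, 0, 1, 2, 7, 8, 6, 4, 5, 3, 11, 9, 10, 14, 12, 13],
    ![12, 14, 13, 9, 11, 10, 5, 4, 3, 8, 7, 6, 1, 0, 2, 16, 15, 17],
    ![3, 4, 5, 6, 7, 8, 13, 14, 12, 10, 11, 9, 17, 15, 16, 2, 0, 1],
    ![0, 1, 2, 3, 4, 5, 6, 7, 8, 9, 10, 11, 12, 13, 14, 15, 16, 17],
    ![9, 10, 11, 6, 7, 8, 15, 16, 17, 12, 13, 14, 0, 1, 2, 3, 4, 5],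
    ![12, 13, 14, 15, 16, 17, 3, 4, 5, 0, 1, 2, 9, 10, 11, 6, 7, 8],
    ![0, 1, 2, 6, 7, 8, 3, 4, 5, 12, 13, 14, 9, 10, 11, 15, 16, 17],
    ![12, 13, 14, 3, 4, 5, 15, 16, 17, 9, 10, 11, 0, 1, 2, 6, 7, 8],
    ![9, 10, 11, 15, 16, 17, 6, 7, 8, 0, 1, 2, 12, 13, 14, 3, 4, 5],
    ![0, 1, 2, 9, 10, 11, 3, 4, 5, 15, 16, 17, 6, 7, 8, 12, 13, 14],
    ![15, 16, 17, 3, 4, 5, 12, 13, 14, 6, 7, 8, 0, 1, 2, 9, 10, 11],
    ![6, 7, 8, 12, 13, 14, 9, 10, 11, 0, 1, 2, 15, 16, 17, 3, 4, 5],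
    ![12, 13, 14, 0, 1, 2, 15, 16, 17, 6, 7, 8, 3, 4, 5, 9, 10, 11],
    ![6, 7, 8, 15, 16, 17, 9, 10, 11, 3, 4, 5, 12, 13, 14, 0, 1, 2],
    ![3, 4, 5, 9, 10, 11, 0, 1, 2, 12, 13, 14, 6, 7, 8, 15, 16, 17],
    ![15, 16, 17, 0, 1, 2, 12, 13, 14, 9, 10, 11, 3, 4, 5, 6, 7, 8],
    ![9, 10, 11, 12, 13, 14, 6, 7, 8, 3, 4, 5, 15, 16, 17, 0, 1, 2],
    ![3, 4, 5, 6, 7, 8, 0, 1, 2, 15, 16, 17, 9, 10, 11, 12, 13, 14],
    ![0, 1, 2, 3, 4, 5, 6, 7, 8, 9, 10, 11, 12, 13, 14, 15, 16, 17],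
    ![3, 5, 4, 0, 2, 1, 12, 14, 13, 15, 17, 16, 6, 8, 7, 9, 11, 10]]

lemma T_inj (k : Fin 35) : Function.Injective (T k) := by
  have key : ∀ (k : Fin 35) (p q : Fin 18), T k p = T k q → p = q := by decide +kernel
  exact fun p q h => key k p q h

lemma T'_inj (k : Fin 35) : Function.Injective (T' k) := by
  have key : ∀ (k : Fin 35) (p q : Fin 18), T' k p = T' k q → p = q := by decide +kernel
  exact fun p q h => key k p q h

/-- the automorphisms as permutations -/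
noncomputable def σ (k : Fin 35) : Equiv.Perm (Fin 18) :=
  Equiv.ofBijective (T k) (Finite.injective_iff_bijective.1 (T_inj k))

lemma σ_apply (k : Fin 35) (p : Fin 18) : σ k p = T k p := rfl

lemma σ_mem (k : Fin 35) : σ k ∈ autGroup I := by
  have key : ∀ (k : Fin 35) (p b : Fin 18), I (T k p) (T' k b) ↔ I p b := by decide +kernel
  exact ⟨Equiv.ofBijective (T' k) (Finite.injective_iff_bijective.1 (T'_inj k)),
    fun p b => key k p b⟩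

lemma joined_iff {τ : Equiv.Perm (Fin 18)} (h : τ ∈ autGroup I) (p q : Fin 18) :
    Joined I (τ p) (τ q) ↔ Joined I p q := by
  obtain ⟨ρ, hρ⟩ := h
  constructor
  · rintro ⟨b, h1, h2⟩
    refine ⟨ρ⁻¹ b, ?_, ?_⟩
    · rw [← hρ, perm_ais]; exact h1
    · rw [← hρ, perm_ais]; exact h2
  · rintro ⟨b, h1, h2⟩
    exact ⟨ρ b, (hρ _ _).2 h1, (hρ _ _).2 h2⟩

lemma to_base (p : Fin 18) : ∃ τ ∈ autGroup I, τ 0 = p := by
  have key : ∀ p : Fin 18, ∃ k : Fin 35, T k 0 = p := by decide +kernel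
  obtain ⟨k, hk⟩ := key p
  exact ⟨σ k, σ_mem k, by rw [σ_apply, hk]⟩

/-- ordered pairs of joined points -/
lemma joined_pair (p q : Fin 18) (hpq : p ≠ q) (h : Joined I p q) :
    ∃ τ ∈ autGroup I, τ 0 = p ∧ τ 3 = q := by
  have key : ∀ x : Fin 18, 0 ≠ x → Joined I 0 x → ∃ k : Fin 35, T k 0 = 0 ∧ T k 3 = x := by
    decide +kernel
  obtain ⟨τ, hτ, rfl⟩ := to_base p
  have h1 : Joined I 0 (τ⁻¹ q) := by
    rw [← joined_iff hτ, perm_ais]; exact h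
  have h2 : 0 ≠ τ⁻¹ q := by
    intro e
    apply hpq
    rw [e, perm_ais]
  obtain ⟨k, hk1, hk2⟩ := key _ h2 h1
  refine ⟨τ * σ k, mul_mem hτ (σ_mem k), ?_, ?_⟩
  · rw [Equiv.Perm.mul_apply, σ_apply, hk1]
  · rw [Equiv.Perm.mul_apply, σ_apply, hk2, perm_ais]

/-- ordered pairs of distinct points that are not joined -/
lemma not_joined_pair (p q : Fin 18) (hpq : p ≠ q) (h : ¬ Joined I p q) :
    ∃ τ ∈ autGroup I, τ 0 = p ∧ τ 1 = q := by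
  have key : ∀ x : Fin 18, 0 ≠ x → ¬ Joined I 0 x → ∃ k : Fin 35, T k 0 = 0 ∧ T k 1 = x := by
    decide +kernel
  obtain ⟨τ, hτ, rfl⟩ := to_base p
  have h1 : ¬ Joined I 0 (τ⁻¹ q) := by
    rw [← joined_iff hτ, perm_ais]; exact h
  have h2 : 0 ≠ τ⁻¹ q := by
    intro e
    apply hpq
    rw [e, perm_ais]
  obtain ⟨k, hk1, hk2⟩ := key _ h2 h1
  refine ⟨τ * σ k, mul_mem hτ (σ_mem k), ?_, ?_⟩
  · rw [Equiv.Perm.mul_apply, σ_apply, hk1]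
  · rw [Equiv.Perm.mul_apply, σ_apply, hk2, perm_ais]

theorem trans_joined : TransitiveOnPairs (autGroup I) (Joined I) := by
  intro p q p' q' h1 h2 h3 h4
  obtain ⟨τ, hτ, e1, e2⟩ := joined_pair p q h1 h3
  obtain ⟨τ', hτ', e1', e2'⟩ := joined_pair p' q' h2 h4
  refine ⟨τ' * τ⁻¹, mul_mem hτ' (inv_mem hτ), ?_⟩
  rw [← e1, ← e2, Equiv.Perm.mul_apply, Equiv.Perm.mul_apply, perm_ias,
    perm_ias, e1', e2']

theorem trans_not_joined : TransitiveOnPairs (autGroup I) (fun p q => ¬ Joined I p q) := by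
  intro p q p' q' h1 h2 h3 h4
  obtain ⟨τ, hτ, e1, e2⟩ := not_joined_pair p q h1 h3
  obtain ⟨τ', hτ', e1', e2'⟩ := not_joined_pair p' q' h2 h4
  refine ⟨τ' * τ⁻¹, mul_mem hτ' (inv_mem hτ), ?_⟩
  rw [← e1, ← e2, Equiv.Perm.mul_apply, Equiv.Perm.mul_apply, perm_ias,
    perm_ias, e1', e2']

theorem not_classical : ¬ IsClassical I := by
  rintro ⟨F, _, _, d, hd, u, e, -⟩
  have h1 : Nat.card (Fin 18) = Nat.card (Fin d → F) := Nat.card_congr e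
  rw [Nat.card_fun, Nat.card_fin, Nat.card_fin] at h1
  have : Fintype F := Fintype.ofFinite F
  have h2 : IsPrimePow (Nat.card F) := by
    rw [Nat.card_eq_fintype_card]
    exact FiniteField.isPrimePow_card F
  have h3 : IsPrimePow 18 := by
    rw [h1]
    exact h2.pow (by omega)
  rw [isPrimePow_nat_iff] at h3
  obtain ⟨p, k, hp, hk, h⟩ := h3
  have d2 : 2 ∣ p ^ k := by rw [h]; norm_num
  have d3 : 3 ∣ p ^ k := by rw [h]; norm_num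
  have e2 := (Nat.prime_dvd_prime_iff_eq Nat.prime_two hp).1 (Nat.prime_two.dvd_of_dvd_pow d2)
  have e3 := (Nat.prime_dvd_prime_iff_eq Nat.prime_three hp).1
    (Nat.prime_three.dvd_of_dvd_pow d3)
  omega

theorem result : ∃ (s μ : ℕ) (P B : Type) (I : P → B → Prop) (G : Subgroup (Equiv.Perm P)),
    2 < s ∧ 1 < μ ∧ IsSymmetricNet s μ I ∧ (∀ σ ∈ G, IsAut I σ) ∧
      TransitiveOnPairs G (Joined I) ∧ TransitiveOnPairs G (fun p q => ¬ Joined I p q) ∧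
        ¬ IsClassical I :=
  ⟨3, 2, Fin 18, Fin 18, I, autGroup I, by norm_num, by norm_num, ⟨isNet, isNet_dual⟩,
    fun _ h => h, trans_joined, trans_not_joined, not_classical⟩

end Pool.Agent.Results.MP_36fbc5_co.NonClassicalNet
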